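import Pool.Agent.W345.VO.Stm

/-! Project VO, part DIA. -/

set_option autoImplicit false

namespace Pool.Agent.W881.VO.Dia

open Pool.Agent.W345.VO

universe u

/-- The product of the factors `f - c i` for `i < N`. -/
noncomputable def P {M : Type u} [AddCommGroup M] [Module ℂ M] (f : Module.End ℂ M)
    (c : ℕ → ℤ) : ℕ → Module.End ℂ M
  | 0 => LinearMap.id
  | N + 1 => (f - (c N : ℂ) • LinearMap.id) ∘ₗ P f c N

theorem P_succ {M : Type u} [AddCommGroup M] [Module ℂ M] (f : Module.End ℂ M)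
    (c : ℕ → ℤ) (N : ℕ) (w : M) : P f c (N + 1) w = f (P f c N w) - (c N : ℂ) • P f c N w := rfl

theorem P_mem {M : Type u} [AddCommGroup M] [Module ℂ M] (f : Module.End ℂ M)
    (T : Submodule ℂ M) (hT : ∀ x ∈ T, f x ∈ T) (c : ℕ → ℤ) (N : ℕ) (w : M) (hw : w ∈ T) :
    P f c N w ∈ T := by
  induction N with
  | zero => exact hw
  | succ N ih =>
    rw [P_succ]
    exact T.sub_mem (hT _ ih) (T.smul_mem _ ih)

theorem P_eig {M : Type u} [AddCommGroup M] [Module ℂ M] (f : Module.End ℂ M)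
    (c : ℕ → ℤ) (N : ℕ) (k : ℤ) (z : M) (hz : f z = (k : ℂ) • z) :
    P f c N z = (∏ i ∈ Finset.range N, ((k : ℂ) - (c i : ℂ))) • z := by
  induction N with
  | zero => simp [P]
  | succ N ih =>
    rw [P_succ, ih, map_smul, hz, Finset.prod_range_succ, smul_smul, smul_smul, ← sub_smul]
    congr 1
    ring

theorem key {M : Type u} [AddCommGroup M] [Module ℂ M] (f : Module.End ℂ M) (T : Submodule ℂ M)
    (hT : ∀ x ∈ T, f x ∈ T) (c : ℕ → ℤ) (hc : Function.Injective c) (N : ℕ) :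
    ∀ w ∈ T, P f c N w = 0 →
      w ∈ Submodule.span ℂ {y : M | y ∈ T ∧ ∃ k : ℤ, f y = (k : ℂ) • y} := by
  induction N with
  | zero =>
    intro w _ h
    have : w = 0 := h
    rw [this]
    exact Submodule.zero_mem _
  | succ N ih =>
    intro w hw h
    have hzT := P_mem f T hT c N w hw
    rw [P_succ, sub_eq_zero] at h
    have h2 := P_eig f c N (c N) _ h
    have h3 : (∏ i ∈ Finset.range N, (((c N : ℤ) : ℂ) - (c i : ℂ))) ≠ 0 := by
      rw [Finset.prod_ne_zero_iff]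
      intro i hi h4
      rw [sub_eq_zero] at h4
      have h5 : c N = c i := by exact_mod_cast h4
      have h6 := hc h5
      rw [Finset.mem_range] at hi
      omega
    have h4 := ih (w - (∏ i ∈ Finset.range N, (((c N : ℤ) : ℂ) - (c i : ℂ)))⁻¹ • P f c N w)
      (T.sub_mem hw (T.smul_mem _ hzT)) (by
        rw [map_sub, map_smul, h2, smul_smul, inv_mul_cancel₀ h3, one_smul, sub_self])
    have h5 : (∏ i ∈ Finset.range N, (((c N : ℤ) : ℂ) - (c i : ℂ)))⁻¹ • P f c N w ∈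
        Submodule.span ℂ {y : M | y ∈ T ∧ ∃ k : ℤ, f y = (k : ℂ) • y} :=
      Submodule.smul_mem _ _ (Submodule.subset_span ⟨hzT, c N, h⟩)
    have h6 := Submodule.add_mem _ h4 h5
    rwa [sub_add_cancel] at h6

variable {M : Type u} [AddCommGroup M] [Module ℂ M]

theorem om_h0 (ρ : Rep M) (y : M) (hy : ρ.Om y) : ρ.Om (ρ.h 0 y) := by
  intro n hn
  have h := ρ.hh n 0 y
  rw [hy n hn, map_zero, sub_zero, if_neg (by omega), zero_smul] at h
  exact h

theorem E_step (ρ : Rep M) (y : M) (hy : ρ.Om y) (n : ℤ) (hE : ∀ m : ℤ, n < m → ρ.E m y = 0) :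
    ∀ m : ℤ, n ≤ m → ρ.E m (ρ.h 0 y - ((-(n + 1) : ℤ) : ℂ) • y) = 0 := by
  intro m hm
  rcases hm.lt_or_eq with h | h
  · have h1 := ρ.hE 0 m y
    rw [hE m h, map_zero, zero_sub, zero_add, hE m h, smul_zero, neg_eq_zero] at h1
    rw [map_sub, map_smul, h1, hE m h, smul_zero, sub_zero]
  · subst h
    have h1 := ρ.TE (n + 1) y
    rw [finsum_eq_single _ 0] at h1
    · have h2 : ρ.E (n + 1 + ((0 : ℕ) : ℤ)) y = 0 := hE _ (by push_cast; omega)
      rw [h2, map_zero, zero_add] at h1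
      have h3 : n + 1 - 1 - ((0 : ℕ) : ℤ) = n := by push_cast; omega
      have h4 : n + 1 - 1 = n := by omega
      rw [h3, h4, Nat.cast_zero] at h1
      rw [map_sub, map_smul, h1]
      push_cast
      rw [sub_eq_zero]
    · intro i hi
      have hi' : 0 < (i : ℤ) := by omega
      rw [hE _ (by omega), map_zero, zero_add, hy _ hi', map_zero]

theorem dia : S_DIA.{u} := by
  intro M _ _ ρ d w hw hO
  -- the space of vacuum vectors of degree d
  let T : Submodule ℂ M :=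
    { carrier := {y | y ∈ ρ.deg d ∧ ρ.Om y}
      add_mem' := by
        rintro a b ⟨ha, ha'⟩ ⟨hb, hb'⟩
        refine ⟨(ρ.deg d).add_mem ha hb, fun n hn => ?_⟩
        rw [map_add, ha' n hn, hb' n hn, add_zero]
      zero_mem' := ⟨(ρ.deg d).zero_mem, fun n hn => map_zero _⟩
      smul_mem' := by
        rintro c a ⟨ha, ha'⟩
        refine ⟨(ρ.deg d).smul_mem _ ha, fun n hn => ?_⟩
        rw [map_smul, ha' n hn, smul_zero] }
  have hT : ∀ x ∈ T, ρ.h 0 x ∈ T := by
    rintro x ⟨hx, hx'⟩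
    exact ⟨(ρ.h_deg 0 d x hx).1 d (by omega), om_h0 ρ x hx'⟩
  let c : ℕ → ℤ := fun N => (N : ℤ) - d
  have hc : Function.Injective c := by
    intro a b h
    have : (a : ℤ) - d = b - d := h
    omega
  have hE : ∀ N : ℕ, ∀ m : ℤ, (d : ℤ) - N ≤ m → ρ.E m (P (ρ.h 0) c N w) = 0 := by
    intro N
    induction N with
    | zero =>
      intro m hm
      exact (ρ.E_deg m d w hw).2 (by push_cast at hm; omega)
    | succ N ih =>
      intro m hm
      have hN := P_mem (ρ.h 0) T hT c N w ⟨hw, hO⟩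
      rw [P_succ]
      have h1 := E_step ρ _ hN.2 ((d : ℤ) - N - 1) (fun m hm => ih m (by omega)) m
        (by push_cast at hm; omega)
      have h2 : (-((d : ℤ) - N - 1 + 1) : ℤ) = c N := by
        show (-((d : ℤ) - N - 1 + 1) : ℤ) = (N : ℤ) - d
        ring
      rw [h2] at h1
      exact h1
  have hN := P_mem (ρ.h 0) T hT c (2 * d + 3) w ⟨hw, hO⟩
  have h0 : P (ρ.h 0) c (2 * d + 3) w = 0 := by
    set y := P (ρ.h 0) c (2 * d + 3) w with hy
    have hEy : ∀ m : ℤ, -(d : ℤ) - 3 ≤ m → ρ.E m y = 0 := by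
      intro m hm
      exact hE (2 * d + 3) m (by push_cast; omega)
    have hFy : ∀ m : ℤ, (d : ℤ) + 1 < m → ρ.F m y = 0 := by
      intro m hm
      exact (ρ.F_deg m d y hN.1).2 (by omega)
    have e1 := ρ.EF (-(d : ℤ) - 2) ((d : ℤ) + 2) y
    have e2 := ρ.EF (-(d : ℤ) - 3) ((d : ℤ) + 3) y
    rw [hFy _ (by omega), hEy _ (by omega), map_zero, map_zero, sub_zero,
      if_pos (by omega)] at e1 e2
    have h3 : -(d : ℤ) - 2 + ((d : ℤ) + 2) = 0 := by omega
    have h4 : -(d : ℤ) - 3 + ((d : ℤ) + 3) = 0 := by omega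
    rw [h3] at e1
    rw [h4] at e2
    have e3 := e1.symm.trans e2
    rw [add_right_inj, ← sub_eq_zero, ← sub_smul] at e3
    have h5 : ((-(d : ℤ) - 2 : ℤ) : ℂ) - ((-(d : ℤ) - 3 : ℤ) : ℂ) = 1 := by
      push_cast
      ring
    rwa [h5, one_smul] at e3
  have := key (ρ.h 0) T hT c hc (2 * d + 3) w ⟨hw, hO⟩ h0
  refine Submodule.span_mono ?_ this
  rintro y ⟨⟨h1, h2⟩, h3⟩
  exact ⟨h1, h2, h3⟩

end Pool.Agent.W881.VO.Dia
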